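import Pool.Agent.N795.BV.Stm2
import Pool.Agent.N826.BVSUMW

/-!
# BV/ZER: the moduli of the zeros (helper627)

The integral formula is that of leaf LOC (helper933).
-/

set_option autoImplicit false

open Polynomial

namespace Pool.Agent.N795.BV

namespace Zer627

/-- the integral formula at a zero `a ≠ 0` -/
theorem formula {m : ℕ} (z : Fin (m + 1) → ℂ) (w : Fin m → ℂ) (hRel : Rel z w) (k : Fin (m + 1))
    (ha0 : z k ≠ 0) :
    ‖z k‖ ^ (m + 1) * ‖((m : ℂ) + 1) * ∫ t in (0 : ℝ)..1, ∏ i, ((t : ℂ) - w i / z k)‖ =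
      ∏ k, ‖z k‖ := by
  set a : ℂ := z k with ha
  set P : ℂ[X] := ∏ k, (X - C (z k)) with hPdef
  have hd : ∀ t : ℝ, HasDerivAt (fun t : ℝ => P.eval ((t : ℂ) * a))
      (((m : ℂ) + 1) * a ^ (m + 1) * ∏ i, ((t : ℂ) - w i / a)) t := by
    intro t
    have h0 : HasDerivAt (fun s : ℂ => s * a) (1 * a) (t : ℂ) :=
      (hasDerivAt_id' (t : ℂ)).mul_const a
    have h00 : HasDerivAt (fun s : ℂ => P.eval s) ((derivative P).eval ((t : ℂ) * a))
        ((fun s : ℂ => s * a) (t : ℂ)) := P.hasDerivAt ((t : ℂ) * a)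
    have h1 : HasDerivAt (fun s : ℂ => P.eval (s * a)) ((derivative P).eval ((t : ℂ) * a) * (1 * a))
        (t : ℂ) := by
      have h000 := HasDerivAt.comp (h := fun s : ℂ => s * a) (h₂ := fun s : ℂ => P.eval s)
        (t : ℂ) h00 h0
      exact h000
    have h2 := h1.comp_ofReal
    have h3 : (derivative P).eval ((t : ℂ) * a) * (1 * a) =
        ((m : ℂ) + 1) * a ^ (m + 1) * ∏ i, ((t : ℂ) - w i / a) := by
      have h4 : derivative P = C ((m : ℂ) + 1) * ∏ i, (X - C (w i)) := hRel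
      rw [h4, eval_mul, eval_C, eval_prod]
      have h5 : ∀ i, eval ((t : ℂ) * a) (X - C (w i)) = a * ((t : ℂ) - w i / a) := by
        intro i
        rw [eval_sub, eval_X, eval_C]
        field_simp
      simp only [h5]
      rw [Finset.prod_mul_distrib, Finset.prod_const, Finset.card_univ, Fintype.card_fin]
      ring
    rw [h3] at h2
    exact h2
  have hint : ∫ t in (0 : ℝ)..1, ((m : ℂ) + 1) * a ^ (m + 1) * ∏ i, ((t : ℂ) - w i / a) =
      P.eval (((1 : ℝ) : ℂ) * a) - P.eval (((0 : ℝ) : ℂ) * a) := by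
    apply intervalIntegral.integral_eq_sub_of_hasDerivAt (fun t _ => hd t)
    apply Continuous.intervalIntegrable
    fun_prop
  have he1 : P.eval (((1 : ℝ) : ℂ) * a) = 0 := by
    rw [Complex.ofReal_one, one_mul, hPdef, eval_prod]
    apply Finset.prod_eq_zero (Finset.mem_univ k)
    rw [eval_sub, eval_X, eval_C, ha, sub_self]
  have he0 : ‖P.eval (((0 : ℝ) : ℂ) * a)‖ = ∏ k, ‖z k‖ := by
    rw [Complex.ofReal_zero, zero_mul, hPdef, eval_prod, norm_prod]
    refine Finset.prod_congr rfl fun j _ => ?_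
    rw [eval_sub, eval_X, eval_C, zero_sub, norm_neg]
  rw [he1, zero_sub, intervalIntegral.integral_const_mul] at hint
  rw [← norm_pow, ← norm_mul, ← he0, ← norm_neg (P.eval _), ← hint]
  congr 1
  ring

theorem geom (m : ℕ) (hm : 2 ≤ m) : ((m : ℝ) + 1) * (5 / 8) ^ m < 2 := by
  induction m, hm using Nat.le_induction with
  | base => norm_num
  | succ n hn ih =>
    have h1 : (2 : ℝ) ≤ n := by exact_mod_cast hn
    have h2 : (0 : ℝ) < (5 / 8) ^ n := by positivity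
    have h3 : (((n + 1 : ℕ) : ℝ) + 1) * (5 / 8) ^ (n + 1) ≤ ((n : ℝ) + 1) * (5 / 8) ^ n := by
      push_cast
      rw [pow_succ]
      have h4 : ((n : ℝ) + 1 + 1) * (5 / 8) ≤ (n : ℝ) + 1 := by linarith
      nlinarith
    exact h3.trans_lt ih

theorem abs_pow (m : ℕ) (x : ℝ) (hx : 0 ≤ x) : |x - 1| ≤ |x ^ (m + 1) - 1| := by
  have h1 : (x - 1) * ∑ i ∈ Finset.range (m + 1), x ^ i = x ^ (m + 1) - 1 := mul_geom_sum x (m + 1)
  have h2 : 1 ≤ ∑ i ∈ Finset.range (m + 1), x ^ i := by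
    rw [Finset.sum_range_succ']
    have : 0 ≤ ∑ k ∈ Finset.range m, x ^ (k + 1) := Finset.sum_nonneg fun i _ => by positivity
    rw [pow_zero]
    linarith
  rw [← h1, abs_mul]
  have h3 := le_abs_self (∑ i ∈ Finset.range (m + 1), x ^ i)
  have h4 := abs_nonneg (x - 1)
  nlinarith

end Zer627

open Zer627 in
theorem zer (hA : S_PHIA) : S_ZER := by
  intro m hm
  obtain ⟨K₀, hK₀, hphi⟩ := hA m hm
  set c : ℂ := ((m : ℂ) + 1) / (2 * ((m : ℂ) - 1)) with hc
  set K₁ : ℝ := K₀ + ‖c‖ * m with hK₁d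
  have hK₁ : 0 < K₁ := by positivity
  refine ⟨min (1 / 8) (1 / (8 * (K₁ + 1))), 8 * K₁, by positivity, by positivity, ?_⟩
  intro z w η hRel hz0 hη hw hprod k
  have hη8 : η ≤ 1 / 8 := hη.trans (min_le_left _ _)
  have hηK : η ≤ 1 / (8 * (K₁ + 1)) := hη.trans (min_le_right _ _)
  have hη0 : 0 ≤ η := (norm_nonneg _).trans (hw ⟨0, by omega⟩)
  have ha0 : z k ≠ 0 := by
    intro h
    have h1 : ∏ k, ‖z k‖ = 0 := Finset.prod_eq_zero (Finset.mem_univ k) (by rw [h, norm_zero])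
    rw [h1] at hprod
    exact zero_ne_one hprod
  have hr0 : 0 < ‖z k‖ := norm_pos_iff.2 ha0
  have hF := formula z w hRel k ha0
  rw [hprod] at hF
  set ρ : ℝ := ‖z k‖ with hρ
  set I : ℂ := ∫ t in (0 : ℝ)..1, ∏ i, ((t : ℂ) - w i / z k) with hI
  have hm1 : ‖((m : ℂ) + 1)‖ = (m : ℝ) + 1 := by
    have : ((m : ℂ) + 1) = ((m + 1 : ℕ) : ℂ) := by push_cast; ring
    rw [this, Complex.norm_natCast]
    push_cast
    ring
  have hm1' : ((m : ℂ) + 1) ≠ 0 := by
    rw [← norm_pos_iff, hm1]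
    positivity
  -- the lower bound for the modulus
  have hIle : ‖I‖ ≤ (1 + η / ρ) ^ m := by
    have h1 := intervalIntegral.norm_integral_le_of_norm_le_const (a := (0 : ℝ)) (b := 1)
      (C := (1 + η / ρ) ^ m) (f := fun t : ℝ => ∏ i, ((t : ℂ) - w i / z k)) (by
        intro t ht
        rw [Set.uIoc_of_le zero_le_one] at ht
        rw [norm_prod]
        calc ∏ i, ‖(t : ℂ) - w i / z k‖ ≤ ∏ _i : Fin m, (1 + η / ρ) := by
              refine Finset.prod_le_prod (fun i _ => norm_nonneg _) fun i _ => ?_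
              refine (norm_sub_le _ _).trans (add_le_add ?_ ?_)
              · rw [Complex.norm_real, Real.norm_of_nonneg ht.1.le]
                exact ht.2
              · rw [norm_div]
                exact div_le_div_of_nonneg_right (hw i) hr0.le
          _ = (1 + η / ρ) ^ m := by
              rw [Finset.prod_const, Finset.card_univ, Fintype.card_fin])
    simpa using h1
  have hhalf : 1 / 2 < ρ := by
    by_contra hcon
    push Not at hcon
    have h1 : 1 ≤ ((m : ℝ) + 1) * (ρ * (ρ + η) ^ m) := by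
      calc (1 : ℝ) = ρ ^ (m + 1) * ‖((m : ℂ) + 1) * I‖ := hF.symm
        _ = ρ ^ (m + 1) * (((m : ℝ) + 1) * ‖I‖) := by rw [norm_mul, hm1]
        _ ≤ ρ ^ (m + 1) * (((m : ℝ) + 1) * (1 + η / ρ) ^ m) := by gcongr
        _ = ((m : ℝ) + 1) * (ρ * (ρ + η) ^ m) := by
            have h2 : ρ + η = ρ * (1 + η / ρ) := by field_simp
            rw [h2, mul_pow, pow_succ]
            ring
    have h2 : ρ * (ρ + η) ^ m ≤ 1 / 2 * (5 / 8) ^ m := by
      have h3 : ρ + η ≤ 5 / 8 := by linarith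
      gcongr
    have h3 := geom m hm
    have h4 : ((m : ℝ) + 1) * (ρ * (ρ + η) ^ m) ≤ ((m : ℝ) + 1) * (1 / 2 * (5 / 8) ^ m) := by
      gcongr
    nlinarith
  -- the expansion
  have hsw : ∑ i, w i = 0 := by
    have h1 := sumw m z w hRel
    rw [hz0, mul_zero] at h1
    exact (mul_eq_zero.1 h1).resolve_left hm1'
  have hu : ∀ i, ‖w i / z k‖ ≤ 2 * η := by
    intro i
    rw [norm_div, div_le_iff₀ hr0]
    have h1 := hw i
    nlinarith
  have hphi' := hphi (fun i => w i / z k) (2 * η) (by linarith) hu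
    (by rw [← Finset.sum_div, hsw, zero_div])
  have hcm : ‖c * ∑ i, (w i / z k) ^ 2‖ ≤ ‖c‖ * m * (2 * η) ^ 2 := by
    rw [norm_mul, mul_assoc]
    refine mul_le_mul_of_nonneg_left ?_ (norm_nonneg _)
    calc ‖∑ i, (w i / z k) ^ 2‖ ≤ ∑ i, ‖(w i / z k) ^ 2‖ := norm_sum_le _ _
      _ ≤ ∑ _i : Fin m, (2 * η) ^ 2 := by
          refine Finset.sum_le_sum fun i _ => ?_
          rw [norm_pow]
          have := hu i
          gcongr
      _ = m * (2 * η) ^ 2 := by
          rw [Finset.sum_const, Finset.card_univ, Fintype.card_fin, nsmul_eq_mul]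
  have hmain : |‖((m : ℂ) + 1) * I‖ - 1| ≤ 4 * K₁ * η ^ 2 := by
    have h1 : |‖((m : ℂ) + 1) * I‖ - ‖(1 : ℂ)‖| ≤ ‖((m : ℂ) + 1) * I - 1‖ := abs_norm_sub_norm_le _ _
    rw [norm_one] at h1
    refine h1.trans ?_
    have h2 : ((m : ℂ) + 1) * I - 1 = (((m : ℂ) + 1) * I - 1 + c * ∑ i, (w i / z k) ^ 2) -
        c * ∑ i, (w i / z k) ^ 2 := by ring
    rw [h2]
    refine (norm_sub_le _ _).trans ?_
    have h3 : K₀ * (2 * η) ^ 3 ≤ K₀ * (2 * η) ^ 2 := by
      refine mul_le_mul_of_nonneg_left ?_ hK₀.le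
      have : (2 * η) ^ 3 = (2 * η) ^ 2 * (2 * η) := by ring
      rw [this]
      have h5 : 0 ≤ (2 * η) ^ 2 := by positivity
      nlinarith
    have h4 : 4 * K₁ * η ^ 2 = K₀ * (2 * η) ^ 2 + ‖c‖ * m * (2 * η) ^ 2 := by
      rw [hK₁d]
      ring
    rw [h4]
    exact add_le_add (hphi'.trans h3) hcm
  have hη2 : 4 * K₁ * η ^ 2 ≤ 1 / 2 := by
    have h1 : η * (8 * (K₁ + 1)) ≤ 1 := by
      rwa [le_div_iff₀ (by positivity)] at hηK
    have h2 : K₁ * η ≤ 1 / 8 := by nlinarith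
    nlinarith
  have habs := abs_le.1 hmain
  have hΦ : 1 / 2 ≤ ‖((m : ℂ) + 1) * I‖ := by linarith [habs.1]
  refine (abs_pow m ρ hr0.le).trans ?_
  have hx : 0 < ρ ^ (m + 1) := by positivity
  have hx2 : ρ ^ (m + 1) ≤ 2 := by nlinarith
  have h5 : ρ ^ (m + 1) - 1 = ρ ^ (m + 1) * (1 - ‖((m : ℂ) + 1) * I‖) := by
    rw [mul_sub, hF]
    ring
  rw [h5, abs_mul, abs_of_pos hx, abs_sub_comm]
  calc ρ ^ (m + 1) * |‖((m : ℂ) + 1) * I‖ - 1| ≤ 2 * (4 * K₁ * η ^ 2) := by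
        gcongr
    _ = 8 * K₁ * η ^ 2 := by ring

end Pool.Agent.N795.BV
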