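import Pool.Agent.N988.EU.Stm
import Pool.Agent.N286.ET_B2

/-!
# Project EU, U2: the mean number of queries of an algorithm (helper627)

As in `Pool.Agent.N286.ET_B2` by helper286.
-/

set_option autoImplicit false

namespace Pool.Agent.N627.EU

open MeasureTheory
open Pool.Agent.N988.EA Pool.Agent.N988.EC Pool.Agent.N988.EP Pool.Agent.N988.ES
open Pool.Agent.N988.ET Pool.Agent.N988.EU Pool.Agent.N286.ET

noncomputable section

open Classical in
theorem noq_finds {b n : ℕ} (e : Edge b n) (t : Pool.Agent.N988.ET.Tree (Edge b n)) :
    ∀ a : Edge b n → Option Bool, Finds t a → a e ≠ none → noq e t := by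
  induction t with
  | stop => intro _ _ _; trivial
  | ask i t u iht ihu =>
    rintro a ⟨hi, ht, hu⟩ hae
    have hie : i ≠ e := by
      intro h
      rw [h] at hi
      exact hae hi
    refine ⟨hie, iht _ ht ?_, ihu _ hu ?_⟩
    · rw [Function.update_of_ne (Ne.symm hie)]
      exact hae
    · rw [Function.update_of_ne (Ne.symm hie)]
      exact hae

open Classical in
theorem mean_finds {b n : ℕ} {p : ℝ} (h0 : 0 < p) (h1 : p < 1)
    (t : Pool.Agent.N988.ET.Tree (Edge b n)) :
    ∀ a : Edge b n → Option Bool, Finds t a →
      ∑ w : Edge b n → Bool, (∏ e, qq p (w e)) * (steps t w : ℝ) = cost p t := by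
  induction t with
  | stop =>
    intro a _
    refine Finset.sum_eq_zero fun w _ => ?_
    show _ * ((0 : ℕ) : ℝ) = 0
    rw [Nat.cast_zero, mul_zero]
  | ask e t u iht ihu =>
    rintro a ⟨-, ht, hu⟩
    have hnt : noq e t :=
      noq_finds e t _ ht (by rw [Function.update_self]; exact Option.some_ne_none _)
    have hnu : noq e u :=
      noq_finds e u _ hu (by rw [Function.update_self]; exact Option.some_ne_none _)
    have e1 : ∀ w : Edge b n → Bool, (∏ e, qq p (w e)) * (steps (.ask e t u) w : ℝ) =
        (∏ e, qq p (w e)) * 1 + (∏ i, qq p (w i)) * (if w e = true then (steps u w : ℝ) else 0) +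
          (∏ i, qq p (w i)) * (if w e = false then (steps t w : ℝ) else 0) := by
      intro w
      rw [← mul_add, ← mul_add]
      congr 1
      have e2 : steps (.ask e t u) w = 1 + if w e then steps u w else steps t w := rfl
      rw [e2]
      cases w e <;> simp
    have s1 := split p e (fun w => (steps u w : ℝ))
      (fun w x => by rw [steps_update e u hnu w x]) true
    have s2 := split p e (fun w => (steps t w : ℝ))
      (fun w x => by rw [steps_update e t hnt w x]) false
    rw [Finset.sum_congr rfl fun w _ => e1 w, Finset.sum_add_distrib, Finset.sum_add_distrib,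
      s1, s2, iht _ ht, ihu _ hu, ← int_eq h0 h1 (fun _ => 1), one_eq h0 h1]
    have e3 : cost p (.ask e t u) = 1 + p * cost p t + (1 - p) * cost p u := rfl
    rw [e3]
    unfold qq
    simp only [if_true, Bool.false_eq_true, if_false]
    ring

theorem t_FC : S_FC := by
  intro b n _ p h0 h1 t a ha
  rw [int_eq h0 h1 (fun w => (steps t w : ℝ))]
  exact mean_finds h0 h1 t a ha

end

end Pool.Agent.N627.EU
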